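import Pool.Agent.Lib.MP_87e9f0_pr.Defs
import Pool.Agent.Lib.MP_87e9f0_pr.Exists3
import Pool.Agent.Lib.MP_87e9f0_pr.Unstable

/-!
# Instability of interference queueing networks above the critical rate

For every dimension `d ≥ 1`, every interference sequence `a` on `ℤ^d` and every arrival rate
`lam > 1 / ∑ a_j`, the interference queueing network started from empty queues is unstable; almost
surely every queue length even grows at least linearly in time.
-/

set_option autoImplicit false

open MeasureTheory ProbabilityTheory Filter Topology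
open Pool.Agent.Lib.MP_87e9f0_pr

namespace Pool.Agent.Results.MP_87e9f0_pr.Instability

theorem result {d : ℕ} (hd : 1 ≤ d) {a : Site d → ℝ} (ha : IsInterference a) {lam : ℝ}
    (hlam : 1 / ∑ᶠ j, a j < lam) {Ω : Type*} [MeasurableSpace Ω] {P : Measure Ω}
    [IsProbabilityMeasure P] {ξ : Kind × Site d × ℕ → Ω → ℝ} (hξ : IsGraphicalData P lam ξ) :
    (∃ x : ℝ → Ω → Site d → ℕ, IsNetworkProcess P a ξ x) ∧
    ∀ x : ℝ → Ω → Site d → ℕ, IsNetworkProcess P a ξ x →
      ¬ Stable P x ∧
      ∀ᵐ ω ∂P, ∀ i : Site d, ∃ c : ℝ, 0 < c ∧ ∀ᶠ t in atTop, c * t ≤ (x t ω i : ℝ) := by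
  have hsum1 : 1 ≤ ∑ᶠ j, a j := by
    have h1 := single_le_finsum (0 : Site d) ha.finite_support ha.nonneg
    rwa [ha.zero] at h1
  have hlam0 : 0 < lam := lt_trans (by positivity) hlam
  refine ⟨exists_networkProcess ha hlam0 hξ, fun x hx => ?_⟩
  have hgrow := ae_linear_growth hd ha hlam hξ hx
  exact ⟨not_stable_of_growth hx.measurable hgrow, hgrow⟩

end Pool.Agent.Results.MP_87e9f0_pr.Instability
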